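import Pool.Agent.helper61.CSW.W.SpecW
import Pool.Agent.helper98.ILF.Poly

/-! # Project csw:, row ATS (helper29): attracting cycles are in the Fatou set -/

set_option autoImplicit false

open Complex Metric Set Filter Topology MeasureTheory
open YPPS (fd fdd pre TT CV IsCyc rho Exact)
open MPS (BB)
open Pool.Agent.helper98.ILF (juliaSet fatouSet)

noncomputable section

open CSS (SE SV JJ)

namespace YW

theorem ATS_att (f : SE) (z : ℂ) (m : ℕ) (hm : 1 ≤ m) (hz : it f m z = z) (hl : ‖mlt f m z‖ < 1) :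
    ∃ r > (0 : ℝ), ball z r ⊆ fatouSet (fun w : ℂ => f.eval w) := by
  have hF : Differentiable ℂ (fun w : ℂ => f.eval w) := f.differentiable
  obtain ⟨ρ, hρ0, htrap⟩ := Pool.Agent.helper98.ILF.exists_trap hF hz hl
  obtain ⟨T, hT, -, hT1, -⟩ := Pool.Agent.helper98.ILF.exists_compact_trap hF.continuous hm htrap
    (isCompact_closedBall z ρ) (j₀ := 0) (fun y hy => hy)
  obtain ⟨B, hB⟩ := hT.isBounded.exists_norm_le
  refine ⟨ρ, hρ0, ?_⟩
  refine interior_maximal (fun y hy => ?_) isOpen_ball
  have hz' : 0 < ρ - dist y z := by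
    rw [mem_ball] at hy; linarith
  refine Pool.Agent.helper98.ILF.equicontAt_of_bounded hF hz' (R := B) (fun n w hw => hB _ (hT1 w ?_ n))
  rw [mem_ball] at hw
  rw [mem_closedBall]
  linarith [dist_triangle w y z]

theorem ATS : ATS_stmt := by
  refine ⟨ATS_att, fun f μ h E => ?_⟩
  refine ⟨h.meas, h.bd, contDiff_const, HasCompactSupport.zero, ?_, ?_, ?_⟩
  · intro z hz
    simp [tsupport] at hz
  · filter_upwards [h.inv] with z hz
    rw [hz]
    have : BR.dbar (fun _ : ℂ => (0 : ℂ)) z = 0 := by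
      simp [BR.dbar]
    rw [this]
    simp
  · intro z m hm hz hl _
    obtain ⟨r, hr, hb⟩ := ATS_att f z m hm hz hl
    refine ⟨r, hr, fun y hy => ?_⟩
    by_contra hne
    exact (h.supp y hne) (hb hy)

end YW
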